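import Pool.Agent.H68.SF.LT2

/-! Part L: the decoding function is definable (T_LDC). -/

set_option linter.unusedVariables false

open Ordinal Cardinal Order Set
open scoped ZFSet

namespace SF

theorem LDC_mem (A i y : V) :
    y ∈ dec A i ↔ ∃ j, ZFSet.pair j i ∈ A ∧ fst j ∈ fst i ∧ y = dec A j := by
  rw [dec, ZFSet.mem_range]
  constructor
  · rintro ⟨⟨q, hq⟩, rfl⟩
    obtain ⟨h1, j, rfl, h2⟩ := ZFSet.mem_sep.1 hq
    refine ⟨j, h1, h2, ?_⟩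
    rw [fst_pair]
  · rintro ⟨j, h1, h2, rfl⟩
    refine ⟨⟨ZFSet.pair j i, ZFSet.mem_sep.2 ⟨h1, j, rfl, h2⟩⟩, ?_⟩
    rw [fst_pair]

private theorem tm_ext_aux (a b : ℕ) : Tm ZFm (fun _ v =>
    (dm (v a)).sep fun j => ZFSet.pair j (v b) ∈ v a ∧ fst j ∈ fst (v b)) := by
  refine (Tm.sep (R := fun _ u => ZFSet.pair (u 0) (u (b + 1)) ∈ u (a + 1) ∧
    fst (u 0) ∈ fst (u (b + 1))) ?_ (Tm.dm (Tm.var a))).congr fun M k v hv => rfl
  exact (Dfb.pairMem (Tm.var 0) (Tm.var _) (Tm.var _)).and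
    (Dfb.mem (Tm.fst (Tm.var 0)) (Tm.fst (Tm.var _)))

theorem pf_LDC : T_LDC := by
  refine ⟨LDC_mem, ?_⟩
  have h : Tm ZFm (fun _ v => dec (v 1) (v 0)) := by
    refine tm_recu (ext := fun _ v => (dm (v 1)).sep fun j =>
        ZFSet.pair j (v 0) ∈ v 1 ∧ fst j ∈ fst (v 0))
      (Φ := fun _ u => imS ((dm (u 2)).sep fun j =>
        ZFSet.pair j (u 1) ∈ u 2 ∧ fst j ∈ fst (u 1)) fun j => app (u 0) j)
      (fun i => (fst i).rank) (tm_ext_aux 1 0) ?_ ?_ ?_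
    · exact Tm.image (g := fun _ u => app (u 1) (u 0)) (tm_ext_aux 2 1)
        (Tm.app (Tm.var 1) (Tm.var 0))
    · intro M k v hv y hy
      exact ZFSet.rank_lt_of_mem (ZFSet.mem_sep.1 hy).2.2
    · intro M k v hv
      ext y
      rw [LDC_mem]
      simp only [mem_imS, cons_zero, cons_succ]
      constructor
      · rintro ⟨j, h1, h2, rfl⟩
        have h3 : j ∈ (dm (v 1)).sep fun j => ZFSet.pair j (v 0) ∈ v 1 ∧ fst j ∈ fst (v 0) :=
          ZFSet.mem_sep.2 ⟨mem_dm.2 ⟨_, h1⟩, h1, h2⟩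
        exact ⟨j, h3, app_resS h3⟩
      · rintro ⟨j, h3, rfl⟩
        obtain ⟨-, h1, h2⟩ := ZFSet.mem_sep.1 h3
        exact ⟨j, h1, h2, app_resS h3⟩
  exact h.rn fun i => if i = 0 then 1 else 0

end SF
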