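import Pool.Agent.H68.SF.LT2

/-! Part L: definability of the enumerations (T_LEQ). -/

set_option linter.unusedVariables false

open Ordinal Cardinal Order Set
open scoped ZFSet

namespace SF

private theorem tm_lin {f g h : (V → Prop) → (ℕ → V) → V} (hL : T_LAR) (hf : Tm ZFm f)
    (hg : Tm ZFm g) (hh : Tm ZFm h) :
    Tm ZFm (fun M v => ((f M v).rank * (g M v).rank + (h M v).rank).toZFSet) := by
  have h1 : Tm ZFm (fun M v => ((f M v).rank * (g M v).rank).toZFSet) :=
    Tm.at2 (F := fun _ x y => (x.rank * y.rank).toZFSet) hL.2 hf hg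
  have h2 := Tm.at2 (F := fun _ x y => (x.rank + y.rank).toZFSet) hL.1 h1 hh
  refine h2.congr fun M k v hv => ?_
  simp only [Ordinal.rank_toZFSet]

theorem pf_LEQ (hLAR : T_LAR) : T_LEQ := by
  refine ⟨?_, ?_, ?_⟩
  · refine (Tm.image (f := fun _ v => ZFSet.prod (v 0) (v 1)) (g := fun _ u =>
      ZFSet.pair ((u 2).rank * (fst (fst (u 0))).rank + (fst (snd (u 0))).rank).toZFSet
        (ZFSet.pair (snd (fst (u 0))) (snd (snd (u 0))))) (Tm.prod (Tm.var 0) (Tm.var 1))
      ?_).congr fun M k v hv => rfl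
    exact Tm.pair (tm_lin hLAR (Tm.var 2) (Tm.fst (Tm.fst (Tm.var 0)))
      (Tm.fst (Tm.snd (Tm.var 0)))) (Tm.pair (Tm.snd (Tm.fst (Tm.var 0)))
        (Tm.snd (Tm.snd (Tm.var 0))))
  · refine (Tm.iUn (f := fun _ v => v 0) (g := fun _ u => imS (snd (u 0)) fun q =>
      ZFSet.pair ((u 1).rank * (fst (u 0)).rank + (fst q).rank).toZFSet (snd q)) (Tm.var 0)
      ?_).congr fun M k v hv => rfl
    refine (Tm.image (f := fun _ u => snd (u 0)) (g := fun _ w =>
      ZFSet.pair ((w 2).rank * (fst (w 1)).rank + (fst (w 0)).rank).toZFSet (snd (w 0)))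
      (Tm.snd (Tm.var 0)) ?_).congr fun M k v hv => rfl
    exact Tm.pair (tm_lin hLAR (Tm.var 2) (Tm.fst (Tm.var 1)) (Tm.fst (Tm.var 0)))
      (Tm.snd (Tm.var 0))
  · intro f g hf hg
    refine (Tm.image (g := fun M u => ZFSet.pair (fst (u 0)) (g M (cons (snd (u 0))
      fun i => u (i + 1)))) hf ?_).congr fun M k v hv => rfl
    exact Tm.pair (Tm.fst (Tm.var 0)) (Tm.push hg (Tm.snd (Tm.var 0)) fun i => i + 1)

end SF
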