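import Pool.Agent.H68.SF.LT3

/-! Part L: generic extensions of levels are levels (T_LNG). -/

set_option linter.unusedVariables false

open Ordinal Cardinal Order Set
open scoped ZFSet

namespace SF

theorem pf_LNG (hLMI : T_LMI) (hLHT : T_LHT) (hLHE : T_LHE) (hFI : T_FI) (hFJ : T_FJ)
    (hFL : T_FL) (hFN : T_FN) : T_LNG := by
  intro N A c r G τ hN hA hNe hc hr hpo hG
  have he0 : (∅ : V).IsTransitive := fun x hx => absurd hx (ZFSet.notMem_empty x)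
  have hH : IsSuccLimit τ ∧ ∀ α : Ordinal.{0}, α.toZFSet ∈ N ↔ α < τ := by
    have h1 := hLHE ∅ A τ he0
    change ZFm (· ∈ LA A τ) → ∅ ∈ LA A τ → A ∈ LA A τ → _ at h1
    have h2 : Lh ∅ A τ = N := hNe.symm
    rw [h2] at h1
    rw [← hNe] at h1
    exact h1 hN.toZFm hN.toZFm.mempty hA
  obtain ⟨hlim, hht⟩ := hH
  obtain ⟨hQ1, hQ2, hQG⟩ := hFI (· ∈ N) c r G hN.toZFm hc hr hpo hG
  have hQ : ZFCm (· ∈ extS N G) := by
    have h1 := hFJ (· ∈ N) c r G hN hc hr hpo hG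
    rwa [ext_eq_extS] at h1
  have hNQ : ∀ x ∈ N, x ∈ extS N G := fun x hx => mem_extS.2 (hQ2 x hx)
  have hGQ : G ∈ extS N G := mem_extS.2 hQG
  have hhtQ : ∀ α : Ordinal.{0}, α.toZFSet ∈ extS N G ↔ α < τ := by
    intro α
    constructor
    · intro h
      exact (hht α).1 (hFL.2.2 (· ∈ N) G α hN.toZFm (mem_extS.1 h))
    · intro h
      exact hNQ _ ((hht α).2 h)
  refine hLMI (extS N G) τ hQ hhtQ (ZFSet.pair A G) (hQ.toZFm.mpair (hNQ A hA) hGQ) ?_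
  intro M hM hMh hp hMQ y hy
  obtain ⟨hAM, hGM⟩ := hM.of_pair hp
  have hNM : ∀ x, x ∈ N → x ∈ M := by
    intro x hx
    rw [hNe] at hx
    obtain ⟨β, hβ, hx⟩ := (mem_Lh_limit hlim).1 hx
    have h1 := hLHT.1 (· ∈ M) hM (cons ∅ (cons A fun _ => β.toZFSet))
      (In.cons (In.cons (fun _ => (hMh β).2 hβ) hAM) hM.mempty)
    change Lh ∅ A (β.toZFSet).rank ∈ M at h1
    rw [Ordinal.rank_toZFSet] at h1
    exact hM.trans _ h1 x hx
  exact hFN (· ∈ N) (· ∈ M) G hM hNM hGM y (mem_extS.1 hy)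

end SF
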