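import Pool.Agent.H9.SF.WDefs

/-! Part W: diamond-star in the final model (T_W2). -/

set_option linter.unusedVariables false

open Ordinal Cardinal Order Set
open scoped ZFSet

namespace SF.H17

open SF

theorem w1_trans : w1.IsTransitive := by
  unfold w1
  exact (ZFSet.isOrdinal_toZFSet _).isTransitive

/-- first shape condition -/
def Sh1 (M : V → Prop) (o ga : V) : Prop :=
  ∀ δ ∈ o, ∀ S, M S → S ⊆ δ → ZFSet.pair δ S ∈ dm ga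

/-- second shape condition -/
def Sh2 (M : V → Prop) (o ga B : V) : Prop :=
  ∀ z ∈ ga, ∃ δ ∈ o, ∃ S, M S ∧ (S ⊆ δ ∧ ∃ x ∈ B, z = ZFSet.pair (ZFSet.pair δ S) x)

theorem dfb_sh1 : Dfb ZFm (fun M v => Sh1 M (v 0) (v 1)) := by
  refine (Dfb.ball (R := fun M v => ∀ S, M S → (S ⊆ v 0 → ZFSet.pair (v 0) S ∈ dm (v 2)))
    ktr_zfm (Tm.var 0) ?_).congr fun M k v hv => Iff.rfl
  refine (Dfb.all (R := fun _ v => v 0 ⊆ v 1 → ZFSet.pair (v 1) (v 0) ∈ dm (v 3)) ?_).congr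
    fun M k v hv => Iff.rfl
  exact (Dfb.subset (Tm.var 0) (Tm.var 1)).imp
    (Dfb.pairMem (Tm.var 1) (Tm.var 0) (Tm.dm (Tm.var 3)))

theorem dfb_sh2 : Dfb ZFm (fun M v => Sh2 M (v 0) (v 1) (v 2)) := by
  refine (Dfb.ball (R := fun M v => ∃ δ ∈ v 1, ∃ S, M S ∧ (S ⊆ δ ∧ ∃ x ∈ v 3,
    v 0 = ZFSet.pair (ZFSet.pair δ S) x)) ktr_zfm (Tm.var 1) ?_).congr fun M k v hv => Iff.rfl
  refine (Dfb.bex (R := fun M v => ∃ S, M S ∧ (S ⊆ v 0 ∧ ∃ x ∈ v 4,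
    v 1 = ZFSet.pair (ZFSet.pair (v 0) S) x)) ktr_zfm (Tm.var 1) ?_).congr
    fun M k v hv => Iff.rfl
  refine (Dfb.ex (R := fun M v => v 0 ⊆ v 1 ∧ ∃ x ∈ v 5,
    v 2 = ZFSet.pair (ZFSet.pair (v 1) (v 0)) x) ?_).congr fun M k v hv => Iff.rfl
  refine (Dfb.subset (Tm.var 0) (Tm.var 1)).and ?_
  exact (Dfb.bex (R := fun _ v => v 3 = ZFSet.pair (ZFSet.pair (v 2) (v 1)) (v 0)) ktr_zfm
    (Tm.var 5) (Dfb.isPair (Tm.var 3) (Tm.pair (Tm.var 2) (Tm.var 1)) (Tm.var 0))).congr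
    fun M k v hv => Iff.rfl

theorem dm_gaf (A : BA) : dm (gaf A) =
    (ZFSet.prod w1 (ZFSet.powerset w1)).sep fun q => snd q ⊆ fst q := by
  unfold gaf
  rw [dm_resS]

theorem gaf_sh1 (A : BA) : Sh1 Al w1 (gaf A) := by
  intro δ hδ S _ hS
  rw [dm_gaf]
  refine ZFSet.mem_sep.2 ⟨ZFSet.pair_mem_prod.2 ⟨hδ, ZFSet.mem_powerset.2 ?_⟩, ?_⟩
  · intro x hx
    exact w1_trans δ hδ (hS hx)
  · rw [fst_pair, snd_pair]
    exact hS

theorem gaf_sh2 (A : BA) : Sh2 Al w1 (gaf A) A.B := by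
  intro z hz
  unfold gaf at hz
  obtain ⟨q, hq, rfl⟩ := mem_resS.1 hz
  obtain ⟨h1, h2⟩ := ZFSet.mem_sep.1 hq
  obtain ⟨δ, hδ, S, hS, rfl⟩ := ZFSet.mem_prod.1 h1
  rw [fst_pair, snd_pair] at h2
  exact ⟨δ, hδ, S, trivial, h2, _, (A.g (acc δ S)).2, by rw [fst_pair, snd_pair]⟩

theorem w2 (hWA : T_WA) (hWC : T_WC) (hWE : T_WE) (hWF : T_WF) (hWG : T_WG) (hWJ : T_WJ)
    (hWK : T_WK) (hWL : T_WL) (hWM : T_WM) (hXN : T_XN) (hXC : T_XC) (hXD : T_XD) : T_W2 := by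
  intro A hgood hfax hAne
  refine ⟨ZFSet.pair w1 (ZFSet.pair (gaf A) Tcl), ?_⟩
  rintro M j hM ⟨x, hx, hjx⟩ B hB hjB G hG
  obtain ⟨hZ, hinj, -, -, -, ho1⟩ := hWE M j hM
  have kM : ZFm (· ∈ M) := hZ.toZFm
  have kA : ZFm Al := hWC.toZFm
  obtain ⟨hR, hF⟩ := hWA ZFm (· ∈ M) Al j hM.elem kM kA
  have hpr : ∀ x ∈ M, IsPr (j x) → ∃ y ∈ M, ∃ z ∈ M, x = ZFSet.pair y z := by
    intro x hx h
    have h1 := (hR _ (Dfb.isPr (Tm.var 0)) (fun _ => x) fun _ => hx).2 h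
    obtain ⟨y, z, h2⟩ := h1
    have h3 : ZFSet.pair y z ∈ M := by
      rw [← h2]
      exact hx
    obtain ⟨h4, h5⟩ := kM.of_pair h3
    exact ⟨y, h4, z, h5, h2⟩
  have hjp : ∀ y ∈ M, ∀ z ∈ M, j (ZFSet.pair y z) = ZFSet.pair (j y) (j z) := by
    intro y hy z hz
    exact hF _ (Tm.pair (Tm.var 0) (Tm.var 1)) (cons y fun _ => z) (In.cons (fun _ => hz) hy)
  obtain ⟨o, ho, y, hy, rfl⟩ := hpr x hx (hjx ▸ ⟨_, _, rfl⟩)
  rw [hjp o ho y hy] at hjx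
  obtain ⟨hjo, hjy⟩ := ZFSet.pair_inj.1 hjx
  obtain ⟨ga, hga, T, hT, rfl⟩ := hpr y hy (hjy ▸ ⟨_, _, rfl⟩)
  rw [hjp ga hga T hT] at hjy
  obtain ⟨hjga, hjT⟩ := ZFSet.pair_inj.1 hjy
  obtain ⟨α, hoα, hα⟩ := ho1 o ho hjo
  subst hoα
  have hCB : CBAr (· ∈ M) B := by
    refine (hR _ hWF.2.1 (fun _ => B) fun _ => hB).2 ?_
    show CBAr Al (j B)
    rw [hjB]
    exact (hWG.1 A.B).1 A.cba
  have hBne : B ≠ {∅} := by
    intro h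
    have h1 := hF _ (Tm.sing Tm.empty) (fun _ => B) fun _ => hB
    change j ({∅} : V) = ({∅} : V) at h1
    rw [h] at hjB
    exact hAne (hjB.symm.trans h1)
  have hNB : NBs (· ∈ M) α.toZFSet B := by
    refine (hR _ hWJ.1 (cons α.toZFSet fun _ => B) (In.cons (fun _ => hB) ho)).2 ?_
    show NBs Al (j α.toZFSet) (j B)
    rw [hjo, hjB]
    exact (hWK A).1 (hXN A hgood)
  have hCBs : CBs (· ∈ M) α.toZFSet B ga := by
    refine (hR _ hWJ.2.1 (cons α.toZFSet (cons B fun _ => ga))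
      (In.cons (In.cons (fun _ => hga) hB) ho)).2 ?_
    show CBs Al (j α.toZFSet) (j B) (j ga)
    rw [hjo, hjB, hjga]
    exact (hWK A).2.1 (hXC A)
  have hDBs : DBs (· ∈ M) α.toZFSet B ga T := by
    refine (hR _ hWJ.2.2 (cons α.toZFSet (cons B (cons ga fun _ => T)))
      (In.cons (In.cons (In.cons (fun _ => hT) hga) hB) ho)).2 ?_
    show DBs Al (j α.toZFSet) (j B) (j ga) (j T)
    rw [hjo, hjB, hjga, hjT]
    exact (hWK A).2.2 (hXD A hgood hfax)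
  have hs1 : Sh1 (· ∈ M) α.toZFSet ga := by
    refine (hR _ dfb_sh1 (cons α.toZFSet fun _ => ga) (In.cons (fun _ => hga) ho)).2 ?_
    show Sh1 Al (j α.toZFSet) (j ga)
    rw [hjo, hjga]
    exact gaf_sh1 A
  have hs2 : Sh2 (· ∈ M) α.toZFSet ga B := by
    refine (hR _ dfb_sh2 (cons α.toZFSet (cons ga fun _ => B))
      (In.cons (In.cons (fun _ => hB) hga) ho)).2 ?_
    show Sh2 Al (j α.toZFSet) (j ga) (j B)
    rw [hjo, hjB, hjga]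
    exact gaf_sh2 A
  have hs3 : Svl ga := by
    refine (hR _ (Dfb.svl (Tm.var 0)) (fun _ => ga) fun _ => hga).2 ?_
    show Svl (j ga)
    rw [hjga]
    exact svl_resS _ _
  have hctb : {x | x ∈ M}.Countable := hM.ctb
  have hW := hWL (· ∈ M) α B G hZ.toZFCm hctb hB hCB hBne hα hNB hG
  rw [← ext_eq_extS]
  refine hWM (· ∈ M) α B ga T G hZ.toZFCm hctb hB hga hT hCB hBne hα hW hG ?_ ?_ hs3 hCBs hDBs
  · intro δ hδ S hS hSδ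
    exact hs1 δ hδ S hS hSδ
  · intro z hz
    obtain ⟨δ, hδ, S, -, h1, h2⟩ := hs2 z hz
    exact ⟨δ, hδ, S, h1, h2⟩

end SF.H17
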