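import Pool.Agent.H9.SF.WDefs

/-! Part W: definability of the Boolean notions (T_WF). -/

set_option linter.unusedVariables false

open Ordinal Cardinal Order Set
open scoped ZFSet

namespace SF.H17

open SF

variable {f g h : (V → Prop) → (ℕ → V) → V}

theorem dfb_lubB (hf : Tm ZFm f) (hg : Tm ZFm g) (hh : Tm ZFm h) :
    Dfb ZFm (fun M v => LubB (f M v) (g M v) (h M v)) := by
  refine Dfb.at3 (P := fun _ x y z => LubB x y z) ?_ hf hg hh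
  refine (Dfb.mem (Tm.var 2) (Tm.var 0)).and (Dfb.and ?_ ?_)
  · exact (Dfb.ball (R := fun _ v => v 0 ⊆ v 3) ktr_zfm (Tm.var 1)
      (Dfb.subset (Tm.var 0) (Tm.var 3))).congr fun M k v hv => Iff.rfl
  · refine (Dfb.ball (R := fun _ v => (∀ s ∈ v 2, s ⊆ v 0) → v 3 ⊆ v 0) ktr_zfm (Tm.var 0)
      ?_).congr fun M k v hv => Iff.rfl
    refine Dfb.imp ?_ (Dfb.subset (Tm.var 3) (Tm.var 0))
    exact (Dfb.ball (R := fun _ v => v 0 ⊆ v 1) ktr_zfm (Tm.var 2)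
      (Dfb.subset (Tm.var 0) (Tm.var 1))).congr fun M k v hv => Iff.rfl

theorem dfb_cbar : Dfb ZFm (fun M v => CBAr M (v 0)) := by
  have h2 : Dfb ZFm (fun _ v => ∀ x ∈ v 0, ∀ y ∈ v 0, x ∩ y ∈ v 0) := by
    refine (Dfb.ball (R := fun _ v => ∀ y ∈ v 1, v 0 ∩ y ∈ v 1) ktr_zfm (Tm.var 0) ?_).congr
      fun M k v hv => Iff.rfl
    exact (Dfb.ball (R := fun _ v => v 1 ∩ v 0 ∈ v 2) ktr_zfm (Tm.var 1)
      (Dfb.mem (Tm.inter (Tm.var 1) (Tm.var 0)) (Tm.var 2))).congr fun M k v hv => Iff.rfl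
  have h3 : Dfb ZFm (fun M v => ∀ S, M S → (S ⊆ v 0 → ∃ b ∈ v 0, LubB (v 0) S b)) := by
    refine (Dfb.all (R := fun M v => v 0 ⊆ v 1 → ∃ b ∈ v 1, LubB (v 1) (v 0) b) ?_).congr
      fun M k v hv => Iff.rfl
    refine (Dfb.subset (Tm.var 0) (Tm.var 1)).imp ?_
    exact (Dfb.bex (R := fun _ v => LubB (v 2) (v 1) (v 0)) ktr_zfm (Tm.var 1)
      (dfb_lubB (Tm.var 2) (Tm.var 1) (Tm.var 0))).congr fun M k v hv => Iff.rfl
  have h4 : Dfb ZFm (fun _ v => ∀ x ∈ v 0, ∃ y ∈ v 0, x ∩ y = ∅ ∧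
      (∀ z ∈ v 0, z ∩ x = ∅ → z ⊆ y) ∧ ∀ z ∈ v 0, z ∩ y = ∅ → z ⊆ x) := by
    refine (Dfb.ball (R := fun _ v => ∃ y ∈ v 1, v 0 ∩ y = ∅ ∧
      (∀ z ∈ v 1, z ∩ v 0 = ∅ → z ⊆ y) ∧ ∀ z ∈ v 1, z ∩ y = ∅ → z ⊆ v 0) ktr_zfm (Tm.var 0)
      ?_).congr fun M k v hv => Iff.rfl
    refine (Dfb.bex (R := fun _ v => v 1 ∩ v 0 = ∅ ∧
      (∀ z ∈ v 2, z ∩ v 1 = ∅ → z ⊆ v 0) ∧ ∀ z ∈ v 2, z ∩ v 0 = ∅ → z ⊆ v 1) ktr_zfm (Tm.var 1)
      ?_).congr fun M k v hv => Iff.rfl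
    refine (Dfb.eq (Tm.inter (Tm.var 1) (Tm.var 0)) Tm.empty).and (Dfb.and ?_ ?_)
    · exact (Dfb.ball (R := fun _ v => v 0 ∩ v 2 = ∅ → v 0 ⊆ v 1) ktr_zfm (Tm.var 2)
        ((Dfb.eq (Tm.inter (Tm.var 0) (Tm.var 2)) Tm.empty).imp
          (Dfb.subset (Tm.var 0) (Tm.var 1)))).congr fun M k v hv => Iff.rfl
    · exact (Dfb.ball (R := fun _ v => v 0 ∩ v 1 = ∅ → v 0 ⊆ v 2) ktr_zfm (Tm.var 2)
        ((Dfb.eq (Tm.inter (Tm.var 0) (Tm.var 1)) Tm.empty).imp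
          (Dfb.subset (Tm.var 0) (Tm.var 2)))).congr fun M k v hv => Iff.rfl
  refine ((Dfb.mem Tm.empty (Tm.var 0)).and (h2.and (h3.and h4))).congr fun M k v hv => ?_
  constructor
  · rintro ⟨a1, a2, a3, a4⟩
    refine ⟨a1, a2, fun S hS hSB => ?_, a4⟩
    obtain ⟨b, -, hb⟩ := a3 S hS hSB
    exact ⟨b, hb⟩
  · rintro ⟨a1, a2, a3, a4⟩
    refine ⟨a1, a2, fun S hS hSB => ?_, a4⟩
    obtain ⟨b, hb⟩ := a3 S hS hSB
    exact ⟨b, hb.1, hb⟩

theorem tm_pos (hf : Tm ZFm f) : Tm ZFm (fun M v => pos (f M v)) :=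
  Tm.diff hf (Tm.sing Tm.empty)

theorem tm_incl (hf : Tm ZFm f) : Tm ZFm (fun M v => incl (f M v)) := by
  refine Tm.at1 (F := fun _ x => incl x) ?_ hf
  exact (Tm.sep (R := fun _ v => fst (v 0) ⊆ snd (v 0)) (Dfb.subset (Tm.fst (Tm.var 0))
    (Tm.snd (Tm.var 0))) (Tm.prod (tm_pos (Tm.var 0)) (tm_pos (Tm.var 0)))).congr
    fun M k v hv => rfl

theorem lubB_unique {B S b b' : V} (h : LubB B S b) (h' : LubB B S b') : b = b' :=
  subset_antisymm (h.2.2 b' h'.1 h'.2.1) (h'.2.2 b h.1 h.2.1)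

theorem wf (hFC : T_FC) : T_WF := by
  refine ⟨dfb_lubB (Tm.var 0) (Tm.var 1) (Tm.var 2), dfb_cbar, tm_pos (Tm.var 0),
    tm_incl (Tm.var 0), fun φ => ?_⟩
  have hS : Tm ZFm (fun M v => (pos (v 0)).sep fun p =>
      frc M (incl (v 0)) φ (fun i => v (i + 1)) p) := by
    refine (Tm.sep (R := fun M u => frc M (incl (u 1)) φ (fun i => u (i + 2)) (u 0)) ?_
      (tm_pos (Tm.var 0))).congr fun M k v hv => rfl
    exact ((hFC φ).push (tm_incl (Tm.var 1)) (fun i => match i with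
      | 0 => 0
      | i + 1 => i + 2)).congr fun M k v hv => Iff.rfl
  have hval : ∀ (M : V → Prop) (B : V) (v : ℕ → V) (b : V),
      LubB B ((pos B).sep fun p => frc M (incl B) φ v p) b → bv M B φ v = b := by
    intro M B v b hb
    unfold bv
    have hex : ∃ b, LubB B ((pos B).sep fun p => frc M (incl B) φ v p) b := ⟨b, hb⟩
    rw [dif_pos hex]
    exact lubB_unique hex.choose_spec hb
  have hval2 : ∀ (M : V → Prop) (B : V) (v : ℕ → V),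
      (¬ ∃ b, LubB B ((pos B).sep fun p => frc M (incl B) φ v p) b) → bv M B φ v = ∅ := by
    intro M B v hb
    unfold bv
    rw [dif_neg hb]
  refine Tm.of_graph (R := fun M w => LubB (w 1) ((pos (w 1)).sep fun p =>
      frc M (incl (w 1)) φ (fun i => w (i + 2)) p) (w 0) ∨
      ((¬ ∃ b ∈ w 1, LubB (w 1) ((pos (w 1)).sep fun p =>
        frc M (incl (w 1)) φ (fun i => w (i + 2)) p) b) ∧ w 0 = ∅)) ?_ ?_ ?_
  · intro M k v hv
    by_cases hex : ∃ b, LubB (v 0) ((pos (v 0)).sep fun p =>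
        frc M (incl (v 0)) φ (fun i => v (i + 1)) p) b
    · obtain ⟨b, hb⟩ := hex
      rw [hval M _ _ b hb]
      exact k.trans _ (hv 0) _ hb.1
    · rw [hval2 M _ _ hex]
      exact k.mempty
  · refine Dfb.or ?_ (Dfb.and (Dfb.not ?_) (Dfb.eq (Tm.var 0) Tm.empty))
    · exact dfb_lubB (g := fun M w => (pos (w 1)).sep fun p =>
        frc M (incl (w 1)) φ (fun i => w (i + 2)) p) (Tm.var 1) (hS.rn fun i => i + 1) (Tm.var 0)
    · refine (Dfb.bex (R := fun M u => LubB (u 2) ((pos (u 2)).sep fun p =>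
        frc M (incl (u 2)) φ (fun i => u (i + 3)) p) (u 0)) ktr_zfm (Tm.var 1) ?_).congr
        fun M k v hv => Iff.rfl
      exact dfb_lubB (g := fun M w => (pos (w 2)).sep fun p =>
        frc M (incl (w 2)) φ (fun i => w (i + 3)) p) (Tm.var 2) (hS.rn fun i => i + 2) (Tm.var 0)
  · intro M k v hv x hx
    simp only [cons_zero, cons_succ]
    by_cases hex : ∃ b, LubB (v 0) ((pos (v 0)).sep fun p =>
        frc M (incl (v 0)) φ (fun i => v (i + 1)) p) b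
    · obtain ⟨b, hb⟩ := hex
      rw [hval M _ _ b hb]
      constructor
      · rintro (h1 | ⟨h1, -⟩)
        · exact lubB_unique h1 hb
        · exact absurd ⟨b, hb.1, hb⟩ h1
      · rintro rfl
        exact Or.inl hb
    · rw [hval2 M _ _ hex]
      constructor
      · rintro (h1 | ⟨-, h1⟩)
        · exact absurd ⟨x, h1⟩ hex
        · exact h1
      · intro h1
        refine Or.inr ⟨?_, h1⟩
        rintro ⟨b, -, hb⟩
        exact hex ⟨b, hb⟩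

end SF.H17
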