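import Pool.Agent.H9.SF.WDefs

/-! Part W: diamond-star in the extension (T_WM). -/

set_option linter.unusedVariables false

open Ordinal Cardinal Order Set
open scoped ZFSet

namespace SF.H17

open SF

/-! ### definability -/

theorem wm_at5 {K : (V → Prop) → Prop} {P : (V → Prop) → V → V → V → V → V → Prop}
    {f0 f1 f2 f3 f4 : (V → Prop) → (ℕ → V) → V}
    (hP : Dfb K (fun M v => P M (v 0) (v 1) (v 2) (v 3) (v 4)))
    (h0 : Tm K f0) (h1 : Tm K f1) (h2 : Tm K f2) (h3 : Tm K f3) (h4 : Tm K f4) :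
    Dfb K (fun M v => P M (f0 M v) (f1 M v) (f2 M v) (f3 M v) (f4 M v)) :=
  hP.comp (args [f0, f1, f2, f3, f4]) (tm_args _ (by
    intro a ha; simp only [List.mem_cons, List.not_mem_nil, or_false] at ha
    rcases ha with rfl | rfl | rfl | rfl | rfl <;> assumption))

/-- `z` decides `X ∩ δ` and forces it into the `δ`-th term -/
def gvi (M : V → Prop) (ga r δ z : V) : Prop :=
  ∃ S, M S ∧ (S ⊆ δ ∧ z ⊆ app ga (ZFSet.pair δ S) ∧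
    ∀ β ∈ δ, (β ∈ S → z ⊆ app r β) ∧ (β ∉ S → z ∩ app r β = ∅))

theorem dfb_gvi (a b c d : ℕ) : Dfb ZFm (fun M v => gvi M (v a) (v b) (v c) (v d)) := by
  refine (Dfb.ex (R := fun M v => v 0 ⊆ v (c + 1) ∧
    v (d + 1) ⊆ app (v (a + 1)) (ZFSet.pair (v (c + 1)) (v 0)) ∧
    ∀ β ∈ v (c + 1), (β ∈ v 0 → v (d + 1) ⊆ app (v (b + 1)) β) ∧
      (β ∉ v 0 → v (d + 1) ∩ app (v (b + 1)) β = ∅)) ?_).congr fun M k v hv => Iff.rfl
  refine (Dfb.subset (Tm.var 0) (Tm.var _)).and (Dfb.and (Dfb.subset (Tm.var _)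
    (Tm.app (Tm.var _) (Tm.pair (Tm.var _) (Tm.var 0)))) ?_)
  refine (Dfb.ball (R := fun _ v => (v 0 ∈ v 1 → v (d + 2) ⊆ app (v (b + 2)) (v 0)) ∧
      (v 0 ∉ v 1 → v (d + 2) ∩ app (v (b + 2)) (v 0) = ∅)) ktr_zfm (Tm.var _) ?_).congr
    fun M k v hv => Iff.rfl
  exact ((Dfb.mem (Tm.var 0) (Tm.var 1)).imp (Dfb.subset (Tm.var _)
    (Tm.app (Tm.var _) (Tm.var 0)))).and ((Dfb.mem (Tm.var 0) (Tm.var 1)).not.imp
      (Dfb.eq (Tm.inter (Tm.var _) (Tm.app (Tm.var _) (Tm.var 0))) Tm.empty))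

theorem dfb_nee {f : (V → Prop) → (ℕ → V) → V} (hf : Tm ZFm f) :
    Dfb ZFm (fun M v => f M v ≠ ∅) := (Dfb.eq hf Tm.empty).not

theorem dfb_gvs : Dfb ZFm (fun M v => gvs M (v 0) (v 1) (v 2) (v 3) (v 4)) := by
  have h : Dfb ZFm (fun M v => ∀ y ∈ v 0, y ≠ ∅ → y ⊆ v 4 →
      ∃ z ∈ v 0, z ≠ ∅ ∧ z ⊆ y ∧ gvi M (v 1) (v 2) (v 3) z) := by
    refine (Dfb.ball (R := fun M v => v 0 ≠ ∅ → v 0 ⊆ v 5 →
      ∃ z ∈ v 1, z ≠ ∅ ∧ z ⊆ v 0 ∧ gvi M (v 2) (v 3) (v 4) z) ktr_zfm (Tm.var 0) ?_).congr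
      fun M k v hv => Iff.rfl
    refine (dfb_nee (Tm.var 0)).imp ((Dfb.subset (Tm.var 0) (Tm.var 5)).imp ?_)
    exact (Dfb.bex (R := fun M v => v 0 ≠ ∅ ∧ v 0 ⊆ v 1 ∧ gvi M (v 3) (v 4) (v 5) (v 0)) ktr_zfm
      (Tm.var 1) ((dfb_nee (Tm.var 0)).and ((Dfb.subset (Tm.var 0) (Tm.var 1)).and
        (dfb_gvi 3 4 5 0)))).congr fun M k v hv => Iff.rfl
  exact h.congr fun M k v hv => Iff.rfl

theorem dfb_eex {f g : (V → Prop) → (ℕ → V) → V} (hf : Tm ZFm f) (hg : Tm ZFm g) :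
    Dfb ZFm (fun M v => EEx (f M v) (g M v)) := by
  refine Dfb.at2 (P := fun _ x y => EEx x y) ?_ hf hg
  refine (Dfb.subset (Tm.var 1) (Tm.var 0)).and ?_
  refine (Dfb.ball (R := fun _ v => (∃ m ∈ v 2, v 0 ∈ m ∨ v 0 = m) → v 0 ∈ v 2) ktr_zfm
    (Tm.var 0) ?_).congr fun M k v hv => Iff.rfl
  refine Dfb.imp ?_ (Dfb.mem (Tm.var 0) (Tm.var 2))
  exact (Dfb.bex (R := fun _ v => v 1 ∈ v 0 ∨ v 1 = v 0) ktr_zfm (Tm.var 2)
    ((Dfb.mem (Tm.var 1) (Tm.var 0)).or (Dfb.eq (Tm.var 1) (Tm.var 0)))).congr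
    fun M k v hv => Iff.rfl

/-- the property of `b2` in `DBs` -/
def dbi (M : V → Prop) (b2 o B ga T r : V) : Prop :=
  ∃ F, M F ∧ (ZFSet.IsFunc T B F ∧
    (∀ t ∈ T, ∀ t' ∈ T, app F t ∩ app F t' ≠ ∅ → EEx t t' ∨ EEx t' t) ∧
    (∀ β ∈ o, ∀ x ∈ B, x ≠ ∅ → x ⊆ b2 → ∃ t ∈ T, (∃ γ ∈ t, β ∈ γ) ∧ x ∩ app F t ≠ ∅) ∧
    ∀ t ∈ T, ∀ δ ∈ t, gvs M B ga r δ (app F t))

theorem dfb_dbi : Dfb ZFm (fun M v => dbi M (v 0) (v 1) (v 2) (v 3) (v 4) (v 5)) := by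
  refine (Dfb.ex (R := fun M v => ZFSet.IsFunc (v 5) (v 3) (v 0) ∧
    (∀ t ∈ v 5, ∀ t' ∈ v 5, app (v 0) t ∩ app (v 0) t' ≠ ∅ → EEx t t' ∨ EEx t' t) ∧
    (∀ β ∈ v 2, ∀ x ∈ v 3, x ≠ ∅ → x ⊆ v 1 → ∃ t ∈ v 5, (∃ γ ∈ t, β ∈ γ) ∧
      x ∩ app (v 0) t ≠ ∅) ∧
    ∀ t ∈ v 5, ∀ δ ∈ t, gvs M (v 3) (v 4) (v 6) δ (app (v 0) t)) ?_).congr
    fun M k v hv => Iff.rfl
  refine (Dfb.isFunc (Tm.var 5) (Tm.var 3) (Tm.var 0)).and (Dfb.and ?_ (Dfb.and ?_ ?_))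
  · refine (Dfb.ball (R := fun _ v => ∀ t' ∈ v 6, app (v 1) (v 0) ∩ app (v 1) t' ≠ ∅ →
      EEx (v 0) t' ∨ EEx t' (v 0)) ktr_zfm (Tm.var 5) ?_).congr fun M k v hv => Iff.rfl
    refine (Dfb.ball (R := fun _ v => app (v 2) (v 1) ∩ app (v 2) (v 0) ≠ ∅ →
      EEx (v 1) (v 0) ∨ EEx (v 0) (v 1)) ktr_zfm (Tm.var 6) ?_).congr fun M k v hv => Iff.rfl
    exact (dfb_nee (Tm.inter (Tm.app (Tm.var 2) (Tm.var 1)) (Tm.app (Tm.var 2) (Tm.var 0)))).imp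
      ((dfb_eex (Tm.var 1) (Tm.var 0)).or (dfb_eex (Tm.var 0) (Tm.var 1)))
  · refine (Dfb.ball (R := fun _ v => ∀ x ∈ v 4, x ≠ ∅ → x ⊆ v 2 → ∃ t ∈ v 6,
      (∃ γ ∈ t, v 0 ∈ γ) ∧ x ∩ app (v 1) t ≠ ∅) ktr_zfm (Tm.var 2) ?_).congr
      fun M k v hv => Iff.rfl
    refine (Dfb.ball (R := fun _ v => v 0 ≠ ∅ → v 0 ⊆ v 3 → ∃ t ∈ v 7,
      (∃ γ ∈ t, v 1 ∈ γ) ∧ v 0 ∩ app (v 2) t ≠ ∅) ktr_zfm (Tm.var 4) ?_).congr
      fun M k v hv => Iff.rfl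
    refine (dfb_nee (Tm.var 0)).imp ((Dfb.subset (Tm.var 0) (Tm.var 3)).imp ?_)
    refine (Dfb.bex (R := fun _ v => (∃ γ ∈ v 0, v 2 ∈ γ) ∧ v 1 ∩ app (v 3) (v 0) ≠ ∅) ktr_zfm
      (Tm.var 7) ?_).congr fun M k v hv => Iff.rfl
    refine Dfb.and ?_ (dfb_nee (Tm.inter (Tm.var 1) (Tm.app (Tm.var 3) (Tm.var 0))))
    exact (Dfb.bex (R := fun _ v => v 3 ∈ v 0) ktr_zfm (Tm.var 0)
      (Dfb.mem (Tm.var 3) (Tm.var 0))).congr fun M k v hv => Iff.rfl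
  · refine (Dfb.ball (R := fun M v => ∀ δ ∈ v 0, gvs M (v 4) (v 5) (v 7) δ
      (app (v 1) (v 0))) ktr_zfm (Tm.var 5) ?_).congr fun M k v hv => Iff.rfl
    refine (Dfb.ball (R := fun M v => gvs M (v 5) (v 6) (v 8) (v 0) (app (v 2) (v 1))) ktr_zfm
      (Tm.var 0) ?_).congr fun M k v hv => Iff.rfl
    exact wm_at5 (P := fun M a b c d e => gvs M a b c d e) dfb_gvs (Tm.var 5) (Tm.var 6)
      (Tm.var 8) (Tm.var 0) (Tm.app (Tm.var 2) (Tm.var 1))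

/-- the property of `b2` in `CBs` -/
def cbi (M : V → Prop) (b2 δ ga : V) : Prop :=
  ∃ Y, M Y ∧ (Ctbl M Y ∧ (∀ S ∈ Y, S ⊆ δ ∧ b2 ⊆ app ga (ZFSet.pair δ S)) ∧
    ∀ S, M S → S ⊆ δ → S ∉ Y → b2 ∩ app ga (ZFSet.pair δ S) = ∅)

theorem dfb_cbi : Dfb ZFm (fun M v => cbi M (v 0) (v 1) (v 2)) := by
  refine (Dfb.ex (R := fun M v => Ctbl M (v 0) ∧
    (∀ S ∈ v 0, S ⊆ v 2 ∧ v 1 ⊆ app (v 3) (ZFSet.pair (v 2) S)) ∧
    ∀ S, M S → S ⊆ v 2 → S ∉ v 0 → v 1 ∩ app (v 3) (ZFSet.pair (v 2) S) = ∅) ?_).congr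
    fun M k v hv => Iff.rfl
  refine (Dfb.ctbl (Tm.var 0)).and (Dfb.and ?_ ?_)
  · exact (Dfb.ball (R := fun _ v => v 0 ⊆ v 3 ∧ v 2 ⊆ app (v 4) (ZFSet.pair (v 3) (v 0)))
      ktr_zfm (Tm.var 0) ((Dfb.subset (Tm.var 0) (Tm.var 3)).and (Dfb.subset (Tm.var 2)
        (Tm.app (Tm.var 4) (Tm.pair (Tm.var 3) (Tm.var 0)))))).congr fun M k v hv => Iff.rfl
  · refine (Dfb.all (R := fun _ v => v 0 ⊆ v 3 → v 0 ∉ v 1 →
      v 2 ∩ app (v 4) (ZFSet.pair (v 3) (v 0)) = ∅) ?_).congr fun M k v hv => Iff.rfl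
    exact (Dfb.subset (Tm.var 0) (Tm.var 3)).imp ((Dfb.mem (Tm.var 0) (Tm.var 1)).not.imp
      (Dfb.eq (Tm.inter (Tm.var 2) (Tm.app (Tm.var 4) (Tm.pair (Tm.var 3) (Tm.var 0))))
        Tm.empty))

theorem tm_gsq : Tm ZFm (fun _ v => gsq (v 0) (v 1) (v 2)) := by
  refine (Tm.resS (g := fun _ u => (rg (dm (u 2))).sep fun S => ZFSet.pair (u 0) S ∈ dm (u 2) ∧
    app (u 2) (ZFSet.pair (u 0) S) ∈ u 3) (Tm.var 0) ?_).congr fun M k v hv => rfl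
  refine (Tm.sep (R := fun _ w => ZFSet.pair (w 1) (w 0) ∈ dm (w 3) ∧
    app (w 3) (ZFSet.pair (w 1) (w 0)) ∈ w 4) ?_ (Tm.rg (Tm.dm (Tm.var 2)))).congr
    fun M k v hv => rfl
  exact (Dfb.pairMem (Tm.var 1) (Tm.var 0) (Tm.dm (Tm.var 3))).and
    (Dfb.mem (Tm.app (Tm.var 3) (Tm.pair (Tm.var 1) (Tm.var 0))) (Tm.var 4))

/-! ### the forcing notion of the nonempty elements -/

theorem mem_pos {B x : V} : x ∈ pos B ↔ x ∈ B ∧ x ≠ ∅ := by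
  unfold pos
  rw [ZFSet.mem_sdiff, ZFSet.mem_singleton]

theorem pair_mem_incl {B p q : V} : ZFSet.pair p q ∈ incl B ↔ p ∈ pos B ∧ q ∈ pos B ∧ p ⊆ q := by
  unfold incl
  rw [ZFSet.mem_sep, ZFSet.pair_mem_prod, fst_pair, snd_pair, and_assoc]


/-- the basic data of the generic filter on an algebra -/
structure GB (M : V → Prop) (B G : V) : Prop where
  inter : ∀ x ∈ G, ∀ y ∈ G, x ∩ y ∈ G
  mem : ∀ x ∈ G, x ∈ B
  ne : ∀ x ∈ G, x ≠ ∅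
  up : ∀ x ∈ G, ∀ y ∈ B, x ⊆ y → y ∈ G
  nem : ∃ x, x ∈ G
  cap : ∀ x ∈ B, ∀ y ∈ B, x ∩ y ∈ B
  dens : ∀ D b, M D → (∀ x ∈ D, x ∈ B ∧ x ≠ ∅) → b ∈ G →
    (∀ x ∈ B, x ≠ ∅ → x ⊆ b → ∃ d ∈ D, d ⊆ x) → ∃ d ∈ G, d ∈ D

theorem gb_of (hFE : T_FE) (hWF : T_WF) (hWG : T_WG) (hWH : T_WH) {M : V → Prop} {B G : V}
    (k : ZFm M) (hB : M B) (hCB : CBAr M B) (hne : B ≠ {∅}) (hG : Gen M (pos B) (incl B) G) :
    GB M B G := by
  obtain ⟨h1, h2, h3, -, -, -⟩ := hWH M B G k hB hCB hG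
  refine ⟨h1, fun x hx => (h2 x hx).1, fun x hx => (h2 x hx).2, h3, ?_, hCB.inter, ?_⟩
  · obtain ⟨x, hx⟩ := (ZFSet.nonempty_def G).1 hG.1.ne
    exact ⟨x, hx⟩
  · intro D b hD hDB hb hd
    have hpM : M (pos B) := hWF.2.2.1.1 M k (fun _ => B) fun _ => hB
    have hiM : M (incl B) := hWF.2.2.2.1.1 M k (fun _ => B) fun _ => hB
    have hpo := hWG.2.2.1 M B hCB hne
    obtain ⟨d, hdG, hdD, -⟩ := hFE M (pos B) (incl B) G D b k hpM hiM hpo hG hD hb (by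
      intro q hq
      obtain ⟨h4, h5, h6⟩ := pair_mem_incl.1 hq
      obtain ⟨h7, h8⟩ := mem_pos.1 h4
      obtain ⟨d, hd1, hd2⟩ := hd q h7 h8 h6
      exact ⟨d, hd1, pair_mem_incl.2 ⟨mem_pos.2 (hDB d hd1), h4, hd2⟩⟩)
    exact ⟨d, hdG, hdD⟩

/-- the terms of the generic sequence -/
theorem mem_gsq {o ga G δ S : V} (hδ : δ ∈ o) : S ∈ app (gsq o ga G) δ ↔
    ZFSet.pair δ S ∈ dm ga ∧ app ga (ZFSet.pair δ S) ∈ G := by
  unfold gsq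
  rw [app_resS hδ, ZFSet.mem_sep]
  exact ⟨fun h => h.2, fun h => ⟨mem_rg.2 ⟨δ, h.1⟩, h⟩⟩

theorem wm (hFE : T_FE) (hFH : T_FH) (hFI : T_FI) (hWF : T_WF) (hWG : T_WG) (hWH : T_WH)
    (hWI : T_WI) : T_WM := by
  intro M α B ga T G hM hctb hB hga hT hCB hBne hα hα2 hG hs1 hs2 hs3 hCBs hDBs
  have k : ZFm M := hM.toZFm
  have gb := gb_of hFE hWF hWG hWH k hB hCB hBne hG
  have hpM : M (pos B) := hWF.2.2.1.1 M k (fun _ => B) fun _ => hB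
  have hiM : M (incl B) := hWF.2.2.2.1.1 M k (fun _ => B) fun _ => hB
  have hpo := hWG.2.2.1 M B hCB hBne
  obtain ⟨kW, hMW, hGW⟩ := hFI M (pos B) (incl B) G k hpM hiM hpo hG
  have hαM : M α.toZFSet := hα.1
  obtain ⟨b0, hb0⟩ := gb.nem
  have hGsub : G ⊆ pos B := hG.1.sub
  -- the shape of ga
  have hgs : ∀ δ S, ZFSet.pair δ S ∈ dm ga → S ⊆ δ ∧ M S ∧ app ga (ZFSet.pair δ S) ∈ B := by
    intro δ S h
    obtain ⟨y, hy⟩ := mem_dm.1 h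
    obtain ⟨δ2, hδ2, S2, hS2, x, hx, he⟩ := hs2 _ hy
    obtain ⟨he1, he2⟩ := ZFSet.pair_inj.1 he
    obtain ⟨he3, he4⟩ := ZFSet.pair_inj.1 he1
    refine ⟨?_, (k.of_pair (k.of_pair_mem hga hy).1).2, ?_⟩
    · rw [he3, he4]
      exact hS2
    · rw [app_eq hs3 hy, he2]
      exact hx
  -- elements of G
  have hdec : ∀ x ∈ G, ∀ y ∈ G, x ∩ y ≠ ∅ := fun x hx y hy => gb.ne _ (gb.inter x hx y hy)
  refine ⟨α, gsq α.toZFSet ga G, hα2, ?_, ?_, ?_⟩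
  · exact tm_gsq.1 _ kW (cons α.toZFSet (cons ga fun _ => G))
      (In.cons (In.cons (fun _ => hGW) (hMW _ hga)) (hMW _ hαM))
  · intro δ0 hδ0
    have hδ : δ0.toZFSet ∈ α.toZFSet := Ordinal.toZFSet_mem_toZFSet_iff.2 hδ0
    have hδM : M δ0.toZFSet := k.trans _ hαM _ hδ
    obtain ⟨b2, hb2G, hb2D⟩ := gb.dens ((pos B).sep fun b2 => cbi M b2 δ0.toZFSet ga) b0 (by
        have h1 := (Tm.sep (R := fun M w => cbi M (w 0) (w 2) (w 3)) (f := fun _ v => v 0)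
          (dfb_cbi.rn fun i => if i = 0 then 0 else i + 1) (Tm.var 0)).1 M k
          (cons (pos B) (cons δ0.toZFSet fun _ => ga))
          (In.cons (In.cons (fun _ => hga) hδM) hpM)
        exact h1) (fun x hx => mem_pos.1 (ZFSet.mem_sep.1 hx).1) hb0 (by
      intro x hx hxne _
      obtain ⟨b2, h1, h2, h3, h4⟩ := hCBs _ hδ x hx hxne
      exact ⟨b2, ZFSet.mem_sep.2 ⟨mem_pos.2 ⟨h1, h2⟩, h4⟩, h3⟩)
    obtain ⟨-, Y, hYM, hYc, hY1, hY2⟩ := ZFSet.mem_sep.1 hb2D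
    have hY : app (gsq α.toZFSet ga G) δ0.toZFSet = Y := by
      ext S
      rw [mem_gsq hδ]
      constructor
      · rintro ⟨h1, h2⟩
        obtain ⟨h3, h4, h5⟩ := hgs _ _ h1
        by_contra h6
        exact hdec _ hb2G _ h2 (hY2 S h4 h3 h6)
      · intro hS
        obtain ⟨h1, h2⟩ := hY1 S hS
        have h3 := hs1 _ hδ S (k.trans _ hYM _ hS) h1
        exact ⟨h3, gb.up _ hb2G _ (hgs _ _ h3).2.2 h2⟩
    rw [hY]
    refine ⟨?_, fun S hS => (hY1 S hS).1⟩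
    rcases hYc with h | ⟨f, hf, h⟩
    · exact Or.inl h
    · exact Or.inr ⟨f, hMW _ hf, h⟩
  · intro X hX hXα
    obtain ⟨n, hn, hXn⟩ := hX
    -- the values of X
    let φ1 : Fml := .mem 0 1
    have hckT : Tm ZFm (fun _ v => ck (v 0) (v 1)) := hFH.2.2.2.2.2.1
    have hck : ∀ x, M x → M (ck (pos B) x) := fun x hx =>
      hckT.1 M k (cons (pos B) fun _ => x) (In.cons (fun _ => hx) hpM)
    have hin : ∀ x, M x → In M (cons (ck (pos B) x) fun _ => n) := fun x hx =>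
      In.cons (fun _ => hn) (hck x hx)
    obtain ⟨r, hr⟩ : ∃ r, r = resS α.toZFSet fun β =>
      bv M B φ1 (cons (ck (pos B) β) fun _ => n) := ⟨_, rfl⟩
    have hrM : M r := by
      have hg : Tm ZFm (fun M u => bv M (u 2) φ1 (cons (ck (pos (u 2)) (u 0)) fun _ => u 3)) := by
        refine ((hWF.2.2.2.2 φ1).comp (fun i => match i with
          | 0 => fun _ u => u 2
          | 1 => fun _ u => ck (pos (u 2)) (u 0)
          | i + 2 => fun _ u => u 3) (fun i => ?_)).congr fun M k v hv => ?_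
        · match i with
          | 0 => exact Tm.var 2
          | 1 =>
            have h1 : Tm ZFm (fun _ u => pos (u 2)) := (hWF.2.2.1.rn fun _ => 2)
            exact Tm.at2 (F := fun _ x y => ck x y) hckT h1 (Tm.var 0)
          | i + 2 => exact Tm.var 3
        · show bv M (v 2) φ1 _ = _
          congr 1
          funext i
          cases i <;> rfl
      have h1 := (Tm.resS (f := fun _ v => v 0) (Tm.var 0) hg).1 M k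
        (cons α.toZFSet (cons B fun _ => n)) (In.cons (In.cons (fun _ => hn) hB) hαM)
      rw [hr]
      exact h1
    have hβM : ∀ β ∈ α.toZFSet, M β := fun β hβ => k.trans _ hαM _ hβ
    have hrf : ZFSet.IsFunc α.toZFSet B r := by
      rw [hr]
      exact isFunc_resS _ _ _ fun β hβ => (hWI M B k hB hCB hBne φ1 _ (hin β (hβM β hβ))).1
    have hrX : ∀ β ∈ α.toZFSet, (app r β ∈ G ↔ β ∈ X) := by
      intro β hβ
      have h1 := (hWI M B k hB hCB hBne φ1 _ (hin β (hβM β hβ))).2.2 G hG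
      rw [hr, app_resS hβ, h1, hXn]
      show val G (ck (pos B) β) ∈ val G n ↔ _
      rw [hFH.2.1 (pos B) G β hGsub hG.1.ne]
    have hrB : ∀ β ∈ α.toZFSet, app r β ∈ B := fun β hβ => app_mem hrf hβ
    -- the element b2
    have hTc : ∀ t ∈ T, Clb α.toZFSet t := hDBs.1
    obtain ⟨b2, hb2G, hb2D⟩ := gb.dens ((pos B).sep fun b2 => dbi M b2 α.toZFSet B ga T r) b0 (by
        have h1 := (Tm.sep (R := fun M w => dbi M (w 0) (w 2) (w 3) (w 4) (w 5) (w 6))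
          (f := fun _ v => v 0)
          (dfb_dbi.rn fun i => if i = 0 then 0 else i + 1) (Tm.var 0)).1 M k
          (cons (pos B) (cons α.toZFSet (cons B (cons ga (cons T fun _ => r)))))
          (In.cons (In.cons (In.cons (In.cons (In.cons (fun _ => hrM) hT) hga) hB) hαM) hpM)
        exact h1) (fun x hx => mem_pos.1 (ZFSet.mem_sep.1 hx).1) hb0 (by
      intro x hx hxne _
      obtain ⟨b2, h1, h2, h3, h4⟩ := hDBs.2 r hrM hrf x hx hxne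
      exact ⟨b2, ZFSet.mem_sep.2 ⟨mem_pos.2 ⟨h1, h2⟩, h4⟩, h3⟩)
    obtain ⟨-, F, hFM, hFf, hFc, hFu, hFg⟩ := ZFSet.mem_sep.1 hb2D
    have hFB : ∀ t ∈ T, app F t ∈ B := fun t ht => app_mem hFf ht
    obtain ⟨C, hC⟩ : ∃ C, C = (α.toZFSet).sep fun γ => ∃ t ∈ T, app F t ∈ G ∧ γ ∈ t := ⟨_, rfl⟩
    have hmC : ∀ γ, γ ∈ C ↔ γ ∈ α.toZFSet ∧ ∃ t ∈ T, app F t ∈ G ∧ γ ∈ t := by
      intro γ
      rw [hC, ZFSet.mem_sep]
    have hCW : Ext M G C := by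
      have h1 := (Tm.sep (R := fun _ w => ∃ t ∈ w 2, app (w 3) t ∈ w 4 ∧ w 0 ∈ t)
        (f := fun _ v => v 0) ((Dfb.bex (R := fun _ u => app (u 4) (u 0) ∈ u 5 ∧ u 1 ∈ u 0)
          ktr_zfm (Tm.var 2) ((Dfb.mem (Tm.app (Tm.var 4) (Tm.var 0)) (Tm.var 5)).and
            (Dfb.mem (Tm.var 1) (Tm.var 0)))).congr fun M k v hv => Iff.rfl) (Tm.var 0)).1 _ kW
        (cons α.toZFSet (cons T (cons F fun _ => G)))
        (In.cons (In.cons (In.cons (fun _ => hGW) (hMW _ hFM)) (hMW _ hT)) (hMW _ hαM))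
      rw [hC]
      exact h1
    have hcmp : ∀ t ∈ T, ∀ t' ∈ T, app F t ∈ G → app F t' ∈ G → EEx t t' ∨ EEx t' t :=
      fun t ht t' ht' h h' => hFc t ht t' ht' (hdec _ h _ h')
    have hunb : ∀ β ∈ α.toZFSet, ∃ t ∈ T, app F t ∈ G ∧ ∃ γ ∈ t, β ∈ γ := by
      intro β hβ
      obtain ⟨z, hzG, hzD⟩ := gb.dens ((pos B).sep fun z => ∃ t ∈ T, (∃ γ ∈ t, β ∈ γ) ∧
          z ⊆ app F t) b2 (by
        have h1 := (Tm.sep (R := fun _ w => ∃ t ∈ w 2, (∃ γ ∈ t, w 3 ∈ γ) ∧ w 0 ⊆ app (w 4) t)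
          (f := fun _ v => v 0) ((Dfb.bex (R := fun _ u => (∃ γ ∈ u 0, u 4 ∈ γ) ∧
            u 1 ⊆ app (u 5) (u 0)) ktr_zfm (Tm.var 2) (Dfb.and
              ((Dfb.bex (R := fun _ u => u 5 ∈ u 0) ktr_zfm (Tm.var 0)
                (Dfb.mem (Tm.var 5) (Tm.var 0))).congr fun M k v hv => Iff.rfl)
              (Dfb.subset (Tm.var 1) (Tm.app (Tm.var 5) (Tm.var 0))))).congr
              fun M k v hv => Iff.rfl) (Tm.var 0)).1 M k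
          (cons (pos B) (cons T (cons β fun _ => F)))
          (In.cons (In.cons (In.cons (fun _ => hFM) (hβM β hβ)) hT) hpM)
        exact h1) (fun x hx => mem_pos.1 (ZFSet.mem_sep.1 hx).1) hb2G (by
        intro x hx hxne hxb
        obtain ⟨t, ht, h1, h2⟩ := hFu β hβ x hx hxne hxb
        refine ⟨x ∩ app F t, ZFSet.mem_sep.2 ⟨mem_pos.2 ⟨gb.cap _ hx _ (hFB t ht), h2⟩, t, ht,
          h1, fun y hy => (ZFSet.mem_inter.1 hy).2⟩, fun y hy => (ZFSet.mem_inter.1 hy).1⟩)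
      obtain ⟨-, t, ht, h1, h2⟩ := ZFSet.mem_sep.1 hzD
      exact ⟨t, ht, gb.up _ hzG _ (hFB t ht) h2, h1⟩
    refine ⟨C, hCW, ?_, ?_, ?_, ?_, ?_⟩
    · intro β hβ
      exact Ordinal.toZFSet_mem_toZFSet_iff.1 ((hmC _).1 hβ).1
    · intro x hx
      obtain ⟨β, -, rfl⟩ := Ordinal.mem_toZFSet_iff.1 ((hmC _).1 hx).1
      exact ⟨β, rfl⟩
    · intro β hβ
      obtain ⟨t, ht, h1, γ, hγ, h2⟩ := hunb β.toZFSet (Ordinal.toZFSet_mem_toZFSet_iff.2 hβ)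
      have h3 : γ ∈ α.toZFSet := (hTc t ht).1 hγ
      obtain ⟨γ0, -, rfl⟩ := Ordinal.mem_toZFSet_iff.1 h3
      exact ⟨γ0, Ordinal.toZFSet_mem_toZFSet_iff.1 h2, (hmC _).2 ⟨h3, t, ht, h1, hγ⟩⟩
    · intro γ0 hγ0 hne hlim
      have hγα : γ0.toZFSet ∈ α.toZFSet := Ordinal.toZFSet_mem_toZFSet_iff.2 hγ0
      obtain ⟨t, ht, h1, γ', hγ', h2⟩ := hunb γ0.toZFSet hγα
      have h2' := h2
      refine (hmC _).2 ⟨hγα, t, ht, h1, (hTc t ht).2.2 _ hγα ?_ ?_⟩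
      · intro h
        apply hne
        have h3 := congrArg ZFSet.rank h
        rwa [Ordinal.rank_toZFSet, ZFSet.rank_empty] at h3
      · intro β hβ
        obtain ⟨β0, hβ0, rfl⟩ := Ordinal.mem_toZFSet_iff.1 hβ
        obtain ⟨γ, hγ1, hγ2, hγ3⟩ := hlim β0 hβ0
        obtain ⟨-, t1, ht1, h3, h4⟩ := (hmC _).1 hγ3
        refine ⟨γ.toZFSet, ?_, Ordinal.toZFSet_mem_toZFSet_iff.2 hγ1,
          Ordinal.toZFSet_mem_toZFSet_iff.2 hγ2⟩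
        rcases hcmp t ht t1 ht1 h1 h3 with h5 | h5
        · exact h5.1 h4
        · refine h5.2 _ h4 ⟨γ', hγ', Or.inl ?_⟩
          have h6 : γ' ∈ α.toZFSet := (hTc t ht).1 hγ'
          obtain ⟨δ, -, rfl⟩ := Ordinal.mem_toZFSet_iff.1 h6
          exact Ordinal.toZFSet_mem_toZFSet_iff.2
            (hγ2.trans (Ordinal.toZFSet_mem_toZFSet_iff.1 h2'))
    · intro δ0 hδ0
      obtain ⟨hδα, t, ht, h1, h2⟩ := (hmC _).1 hδ0
      have hδM : M δ0.toZFSet := hβM _ hδα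
      have hgv := hFg t ht _ h2
      obtain ⟨z, hzG, hzD⟩ := gb.dens ((pos B).sep fun z => gvi M ga r δ0.toZFSet z)
          (app F t) (by
        have h1 := (Tm.sep (R := fun M w => gvi M (w 2) (w 3) (w 4) (w 0))
          (f := fun _ v => v 0) (dfb_gvi 2 3 4 0) (Tm.var 0)).1 M k
          (cons (pos B) (cons ga (cons r fun _ => δ0.toZFSet)))
          (In.cons (In.cons (In.cons (fun _ => hδM) hrM) hga) hpM)
        exact h1) (fun x hx => mem_pos.1 (ZFSet.mem_sep.1 hx).1) h1 (by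
        intro x hx hxne hxb
        obtain ⟨z, hz, hzne, hzx, h3⟩ := hgv x hx hxne hxb
        exact ⟨z, ZFSet.mem_sep.2 ⟨mem_pos.2 ⟨hz, hzne⟩, h3⟩, hzx⟩)
      obtain ⟨-, S, hSM, hSδ, hS1, hS2⟩ := ZFSet.mem_sep.1 hzD
      have hδtr : ∀ β ∈ δ0.toZFSet, β ∈ α.toZFSet := fun β hβ =>
        (ZFSet.isOrdinal_toZFSet α).isTransitive _ hδα hβ
      have hSX : X ∩ δ0.toZFSet = S := by
        ext β
        rw [ZFSet.mem_inter]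
        constructor
        · rintro ⟨h3, h4⟩
          by_contra h5
          exact hdec _ hzG _ ((hrX β (hδtr β h4)).2 h3) ((hS2 β h4).2 h5)
        · intro h3
          have h4 := hSδ h3
          exact ⟨(hrX β (hδtr β h4)).1 (gb.up _ hzG _ (hrB β (hδtr β h4)) ((hS2 β h4).1 h3)), h4⟩
      rw [hSX, mem_gsq hδα]
      have h3 := hs1 _ hδα S hSM hSδ
      exact ⟨h3, gb.up _ hzG _ (hgs _ _ h3).2.2 hS1⟩

end SF.H17
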